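import Pool.Agent.Q224.NR.Stmts

set_option autoImplicit false

namespace Pool.Agent.Q224.NR

open Filter Topology

private theorem asym_large (E : ℝ) (hE : 1 ≤ E) : ∀ᶠ L : ℝ in atTop,
    1 ≤ L ∧ 60000 * E * L + 1 ≤ L ^ 2 ∧
      Real.log L ≤ 1 / (48 * (3072 * E) ^ 2) * L ^ (1 / 7 : ℝ) ∧
      1536 * E * L ≤ Real.exp (L / 4) := by
  have hE0 : 0 < E := by linarith
  have h2 : ∀ᶠ L : ℝ in atTop, 60000 * E * L + 1 ≤ L ^ 2 := by
    filter_upwards [eventually_ge_atTop (60000 * E + 1)] with L hL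
    have h1 : 1 ≤ L := by nlinarith
    nlinarith
  have h3 : ∀ᶠ L : ℝ in atTop, Real.log L ≤ 1 / (48 * (3072 * E) ^ 2) * L ^ (1 / 7 : ℝ) := by
    have h := (isLittleO_log_rpow_atTop (r := (1 / 7 : ℝ)) (by norm_num)).bound
      (show (0 : ℝ) < 1 / (48 * (3072 * E) ^ 2) by positivity)
    filter_upwards [h, eventually_ge_atTop (1 : ℝ)] with L hL h1
    have h4 : ‖L ^ (1 / 7 : ℝ)‖ = L ^ (1 / 7 : ℝ) :=
      Real.norm_of_nonneg (Real.rpow_nonneg (by linarith) _)
    rw [h4] at hL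
    exact (le_abs_self _).trans hL
  have h4 : ∀ᶠ L : ℝ in atTop, 1536 * E * L ≤ Real.exp (L / 4) := by
    have h := (isLittleO_pow_exp_pos_mul_atTop (k := 1) (b := (1 / 4 : ℝ)) (by norm_num)).bound
      (show (0 : ℝ) < 1 / (1536 * E) by positivity)
    filter_upwards [h, eventually_ge_atTop (1 : ℝ)] with L hL h1
    rw [Real.norm_of_nonneg (Real.exp_pos _).le, pow_one, Real.norm_of_nonneg (by linarith)] at hL
    have h5 : Real.exp (1 / 4 * L) = Real.exp (L / 4) := by congr 1; ring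
    rw [h5, div_mul_eq_mul_div, one_mul, le_div_iff₀ (by positivity)] at hL
    linarith
  filter_upwards [eventually_ge_atTop (1 : ℝ), h2, h3, h4] with L a b c d
  exact ⟨a, b, c, d⟩

private theorem asym_pt (D : ℕ) (P L α : ℝ) (hP : P = Real.exp L) (h1 : 1 ≤ L)
    (h2 : 60000 * ((D : ℝ) + 1) * L + 1 ≤ L ^ 2)
    (h3 : Real.log L ≤ 1 / (48 * (3072 * ((D : ℝ) + 1)) ^ 2) * L ^ (1 / 7 : ℝ))
    (h4 : 1536 * ((D : ℝ) + 1) * L ≤ Real.exp (L / 4))
    (hα : 1 / L ^ (1 / 7 : ℝ) ≤ α) (hα1 : α ≤ 1) :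
    ∃ (M κ : ℕ) (δ : ℝ), 1 ≤ M ∧ 0 < δ ∧ α / δ ^ 2 ≤ κ ∧
      P * (δ + 3 * (2 * Real.pi / M) * α) * (D * α) +
        D * Real.sqrt P * (α * (M : ℝ) ^ κ) ^ 3 + α ≤ P * α ^ 4 / 512 := by
  obtain ⟨x, hx⟩ : ∃ x : ℝ, x = L ^ (1 / 7 : ℝ) := ⟨_, rfl⟩
  have hL0 : 0 < L := by linarith
  have hx1 : 1 ≤ x := by rw [hx]; exact Real.one_le_rpow h1 (by norm_num)
  have hxL : x ^ 7 = L := by
    rw [hx, ← Real.rpow_natCast, ← Real.rpow_mul hL0.le]
    norm_num
  have hx0 : 0 < x := by linarith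
  obtain ⟨E, hE⟩ : ∃ E : ℝ, E = (D : ℝ) + 1 := ⟨_, rfl⟩
  have hD0 : (0 : ℝ) ≤ D := Nat.cast_nonneg D
  have hE1 : 1 ≤ E := by rw [hE]; linarith
  have hE0 : 0 < E := by linarith
  have hDE : (D : ℝ) ≤ E := by rw [hE]; linarith
  rw [← hx] at hα h3
  rw [← hE] at h2 h3 h4
  have hα0 : 0 < α := lt_of_lt_of_le (by positivity) hα
  have hαx : 1 ≤ α * x := by rwa [div_le_iff₀ hx0] at hα
  have hP0 : 0 < P := by rw [hP]; exact Real.exp_pos _
  have hsq : Real.sqrt P = Real.exp (L / 2) := by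
    have h : Real.exp (L / 2) ^ 2 = P := by
      rw [hP, ← Real.exp_nat_mul]
      congr 1
      push_cast
      ring
    rw [← h, Real.sqrt_sq (Real.exp_pos _).le]
  have hsq2 : Real.sqrt P * Real.sqrt P = P := Real.mul_self_sqrt hP0.le
  have hsq0 : 0 < Real.sqrt P := Real.sqrt_pos.2 hP0
  obtain ⟨C, hC⟩ : ∃ C : ℝ, C = (3072 * E) ^ 2 := ⟨_, rfl⟩
  have hC1 : 1 ≤ C := by rw [hC]; nlinarith
  rw [← hC] at h3
  obtain ⟨κ, hκ⟩ : ∃ κ : ℕ, κ = ⌈C * x ^ 6⌉₊ := ⟨_, rfl⟩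
  obtain ⟨M, hM⟩ : ∃ M : ℕ, M = ⌈60000 * E * L⌉₊ := ⟨_, rfl⟩
  have hκ1 : C * x ^ 6 ≤ κ := by rw [hκ]; exact Nat.le_ceil _
  have hx6 : 1 ≤ x ^ 6 := one_le_pow₀ hx1
  have hCx : 1 ≤ C * x ^ 6 := by nlinarith
  have hκ2 : (κ : ℝ) ≤ 2 * (C * x ^ 6) := by
    have h := (Nat.ceil_lt_add_one (show 0 ≤ C * x ^ 6 by linarith)).le
    rw [← hκ] at h
    linarith
  have hM1 : 60000 * E * L ≤ M := by rw [hM]; exact Nat.le_ceil _
  have hEL : 1 ≤ E * L := by nlinarith
  have hM2 : (M : ℝ) ≤ L ^ 2 := by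
    have h := (Nat.ceil_lt_add_one (show 0 ≤ 60000 * E * L by nlinarith)).le
    rw [← hM] at h
    linarith
  have hM0 : (0 : ℝ) < M := by nlinarith
  have hMn : 1 ≤ M := by exact_mod_cast Nat.one_le_iff_ne_zero.2 (by
    intro h; rw [h] at hM0; simp at hM0)
  -- the power
  have hpow : ((M : ℝ) ^ κ) ^ 3 ≤ Real.exp (L / 4) := by
    have hlog : 0 ≤ Real.log L := Real.log_nonneg h1
    have ha : (M : ℝ) ≤ Real.exp (2 * Real.log L) := by
      have hb : Real.exp (2 * Real.log L) = L ^ 2 := by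
        rw [mul_comm, Real.exp_mul, Real.exp_log hL0]
        norm_num
      rw [hb]; exact hM2
    have hb : ((M : ℝ) ^ κ) ^ 3 ≤ Real.exp (6 * κ * Real.log L) := by
      rw [← pow_mul]
      calc (M : ℝ) ^ (κ * 3) ≤ Real.exp (2 * Real.log L) ^ (κ * 3) :=
            pow_le_pow_left₀ hM0.le ha _
        _ = Real.exp (6 * κ * Real.log L) := by
            rw [← Real.exp_nat_mul]
            congr 1
            push_cast
            ring
    refine hb.trans (Real.exp_le_exp.2 ?_)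
    have hc : 6 * (κ : ℝ) * Real.log L ≤ 6 * (2 * (C * x ^ 6)) * Real.log L := by
      have : 6 * (κ : ℝ) ≤ 6 * (2 * (C * x ^ 6)) := by linarith
      exact mul_le_mul_of_nonneg_right this hlog
    have hd : 6 * (2 * (C * x ^ 6)) * Real.log L ≤
        6 * (2 * (C * x ^ 6)) * (1 / (48 * C) * x) :=
      mul_le_mul_of_nonneg_left h3 (by positivity)
    have he : 6 * (2 * (C * x ^ 6)) * (1 / (48 * C) * x) = x ^ 7 / 4 := by
      have hC0 : C ≠ 0 := by linarith
      field_simp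
      ring
    rw [he, hxL] at hd
    linarith
  -- powers of alpha
  have hαx2 : 1 ≤ α ^ 2 * x ^ 2 := by rw [← mul_pow]; exact one_le_pow₀ hαx
  have hαx3 : 1 ≤ α ^ 3 * x ^ 3 := by rw [← mul_pow]; exact one_le_pow₀ hαx
  refine ⟨M, κ, 1 / (3072 * E * x ^ 3), hMn, by positivity, ?_, ?_⟩
  · have h : α / (1 / (3072 * E * x ^ 3)) ^ 2 = α * (C * x ^ 6) := by
      rw [hC]
      field_simp
    rw [h]
    calc α * (C * x ^ 6) ≤ 1 * (C * x ^ 6) := mul_le_mul_of_nonneg_right hα1 (by linarith)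
      _ ≤ κ := by rw [one_mul]; exact hκ1
  · have t1 : 1 / (3072 * E * x ^ 3) * D ≤ α ^ 3 / 3072 := by
      rw [div_mul_eq_mul_div, one_mul, div_le_div_iff₀ (by positivity) (by norm_num)]
      have ha : (D : ℝ) * 3072 ≤ E * 3072 := by linarith
      have hb : E * 3072 ≤ (E * 3072) * (α ^ 3 * x ^ 3) :=
        le_mul_of_one_le_right (by positivity) hαx3
      calc (D : ℝ) * 3072 ≤ E * 3072 := ha
        _ ≤ (E * 3072) * (α ^ 3 * x ^ 3) := hb
        _ = α ^ 3 * (3072 * E * x ^ 3) := by ring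
    have t2 : 3 * (2 * Real.pi / M) * D ≤ α ^ 2 / 3072 := by
      have hpi : Real.pi < 3.15 := Real.pi_lt_d2
      have hpi0 : 0 < Real.pi := Real.pi_pos
      have e : 3 * (2 * Real.pi / M) * D = (6 * Real.pi * D) / M := by ring
      rw [e, div_le_div_iff₀ hM0 (by norm_num)]
      have ha : 6 * Real.pi * D * 3072 ≤ 60000 * E := by
        have : 6 * Real.pi * 3072 ≤ 60000 := by nlinarith
        calc 6 * Real.pi * D * 3072 = (6 * Real.pi * 3072) * D := by ring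
          _ ≤ 60000 * E := mul_le_mul this hDE hD0 (by norm_num)
      have hxle : x ^ 2 ≤ L := by
        rw [← hxL]
        exact pow_le_pow_right₀ hx1 (by norm_num)
      have hb : (1 : ℝ) ≤ α ^ 2 * L := by
        have : α ^ 2 * x ^ 2 ≤ α ^ 2 * L := mul_le_mul_of_nonneg_left hxle (by positivity)
        linarith
      calc 6 * Real.pi * D * 3072 ≤ 60000 * E := ha
        _ ≤ (60000 * E) * (α ^ 2 * L) := le_mul_of_one_le_right (by positivity) hb
        _ = α ^ 2 * (60000 * E * L) := by ring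
        _ ≤ α ^ 2 * M := mul_le_mul_of_nonneg_left hM1 (by positivity)
    have t12 : P * (1 / (3072 * E * x ^ 3) + 3 * (2 * Real.pi / M) * α) * (D * α) ≤
        P * α ^ 4 / 1536 := by
      have e : P * (1 / (3072 * E * x ^ 3) + 3 * (2 * Real.pi / M) * α) * (D * α) =
          P * α * (1 / (3072 * E * x ^ 3) * D) + P * α ^ 2 * (3 * (2 * Real.pi / M) * D) := by
        ring
      rw [e]
      have ha := mul_le_mul_of_nonneg_left t1 (show 0 ≤ P * α by positivity)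
      have hb := mul_le_mul_of_nonneg_left t2 (show 0 ≤ P * α ^ 2 by positivity)
      have e2 : P * α * (α ^ 3 / 3072) + P * α ^ 2 * (α ^ 2 / 3072) = P * α ^ 4 / 1536 := by ring
      linarith
    have t3 : D * Real.sqrt P * (α * (M : ℝ) ^ κ) ^ 3 ≤ P * α ^ 4 / 1536 := by
      have hk : 1536 * (D : ℝ) * ((M : ℝ) ^ κ) ^ 3 ≤ Real.sqrt P * α := by
        have hxL' : x ≤ L := by
          calc x = x ^ 1 := (pow_one x).symm
            _ ≤ x ^ 7 := pow_le_pow_right₀ hx1 (by norm_num)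
            _ = L := hxL
        have ha : 1536 * (D : ℝ) * x ≤ Real.exp (L / 4) := by
          calc 1536 * (D : ℝ) * x ≤ 1536 * E * L :=
                mul_le_mul (by linarith) hxL' hx0.le (by positivity)
            _ ≤ _ := h4
        have hb : (1536 * (D : ℝ) * x) * ((M : ℝ) ^ κ) ^ 3 ≤
            Real.exp (L / 4) * Real.exp (L / 4) :=
          mul_le_mul ha hpow (by positivity) (Real.exp_pos _).le
        have hc : Real.exp (L / 4) * Real.exp (L / 4) = Real.sqrt P := by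
          rw [hsq, ← Real.exp_add]
          congr 1
          ring
        rw [hc] at hb
        calc 1536 * (D : ℝ) * ((M : ℝ) ^ κ) ^ 3
            ≤ (1536 * (D : ℝ) * ((M : ℝ) ^ κ) ^ 3) * (α * x) :=
              le_mul_of_one_le_right (by positivity) hαx
          _ = (1536 * (D : ℝ) * x * ((M : ℝ) ^ κ) ^ 3) * α := by ring
          _ ≤ Real.sqrt P * α := mul_le_mul_of_nonneg_right hb hα0.le
      have e : D * Real.sqrt P * (α * (M : ℝ) ^ κ) ^ 3 =
          (Real.sqrt P * α ^ 3 / 1536) * (1536 * (D : ℝ) * ((M : ℝ) ^ κ) ^ 3) := by ring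
      rw [e]
      have ha := mul_le_mul_of_nonneg_left hk
        (show 0 ≤ Real.sqrt P * α ^ 3 / 1536 by positivity)
      have e2 : (Real.sqrt P * α ^ 3 / 1536) * (Real.sqrt P * α) =
          (Real.sqrt P * Real.sqrt P) * α ^ 4 / 1536 := by ring
      rw [e2, hsq2] at ha
      exact ha
    have t4 : α ≤ P * α ^ 4 / 1536 := by
      have hx3L : x ^ 3 ≤ L := by
        rw [← hxL]
        exact pow_le_pow_right₀ hx1 (by norm_num)
      have ha : 1536 * x ^ 3 ≤ P := by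
        calc 1536 * x ^ 3 ≤ 1536 * E * L := by
              have : 1536 * x ^ 3 ≤ 1536 * L := by linarith
              nlinarith
          _ ≤ Real.exp (L / 4) := h4
          _ ≤ Real.exp L := Real.exp_le_exp.2 (by linarith)
          _ = P := hP.symm
      have hb : 1536 ≤ P * α ^ 3 := by
        calc (1536 : ℝ) ≤ 1536 * (α ^ 3 * x ^ 3) := by linarith
          _ = (1536 * x ^ 3) * α ^ 3 := by ring
          _ ≤ P * α ^ 3 := mul_le_mul_of_nonneg_right ha (by positivity)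
      rw [le_div_iff₀ (by norm_num)]
      calc α * 1536 ≤ α * (P * α ^ 3) := mul_le_mul_of_nonneg_left hb hα0.le
        _ = P * α ^ 4 := by ring
    linarith

theorem asym : Asym := by
  intro D
  have hE : (1 : ℝ) ≤ (D : ℝ) + 1 := by
    have : (0 : ℝ) ≤ D := Nat.cast_nonneg D
    linarith
  have h := (Real.tendsto_log_atTop.comp tendsto_natCast_atTop_atTop).eventually
    (asym_large ((D : ℝ) + 1) hE)
  obtain ⟨p₀, hp₀⟩ := eventually_atTop.1 (h.and (eventually_ge_atTop 1))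
  refine ⟨p₀, fun p hp α hα hα1 => ?_⟩
  obtain ⟨⟨a, b, c, d⟩, e⟩ := hp₀ p hp
  exact asym_pt D p (Real.log p) α (Real.exp_log (by exact_mod_cast e)).symm a b c d hα hα1

end Pool.Agent.Q224.NR
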