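import Pool.Agent.Q224.NR.Stmts

set_option autoImplicit false

open scoped BigOperators
open Polynomial

namespace Pool.Agent.Q224.NR

private theorem ee_sub_bohr (p : ℕ) [Fact p.Prime] (x y : ZMod p) :
    ‖ee (x - y) - 1‖ ≤ 2 * Real.pi * (|((x.val : ℝ) - (y.val : ℝ))| / p) := by
  have hx : x - y = (((x.val : ℤ) - (y.val : ℤ) : ℤ) : ZMod p) := by
    push_cast
    rw [ZMod.natCast_zmod_val, ZMod.natCast_zmod_val]
  rw [hx]
  unfold ee
  rw [ZMod.stdAddChar_coe]
  have h1 : (2 * (Real.pi : ℂ) * Complex.I * (((x.val : ℤ) - (y.val : ℤ) : ℤ) : ℂ) / (p : ℂ)) =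
      Complex.I * ((2 * Real.pi * (((x.val : ℝ) - (y.val : ℝ)) / p) : ℝ) : ℂ) := by
    push_cast
    ring
  rw [h1]
  refine (Real.norm_exp_I_mul_ofReal_sub_one_le).trans ?_
  rw [Real.norm_eq_abs, abs_mul, abs_div, abs_of_pos (by positivity : (0:ℝ) < 2 * Real.pi),
    abs_of_nonneg (by positivity : (0:ℝ) ≤ (p : ℝ))]

theorem bohr : Bohr := by
  intro p _ K M hM
  classical
  have hp : 0 < p := (Fact.out : p.Prime).pos
  let f : ZMod p → (K → Fin M) := fun x k => ⟨((k : ZMod p) * x).val * M / p, by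
    rw [Nat.div_lt_iff_lt_mul hp]
    rw [mul_comm M p]
    exact Nat.mul_lt_mul_of_pos_right (ZMod.val_lt _) hM⟩
  have hne : (Finset.univ : Finset (K → Fin M)).Nonempty := by
    have : Nonempty (Fin M) := ⟨⟨0, hM⟩⟩
    exact Finset.univ_nonempty
  have hcard : (Finset.univ : Finset (K → Fin M)).card = M ^ K.card := by
    simp
  obtain ⟨y, -, hy⟩ := Finset.exists_le_card_fiber_of_nsmul_le_card_of_maps_to
    (s := (Finset.univ : Finset (ZMod p))) (t := (Finset.univ : Finset (K → Fin M))) (f := f)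
    (b := ((p : ℝ) / (M : ℝ) ^ K.card)) (fun _ _ => Finset.mem_univ _) hne (by
      rw [hcard, Finset.card_univ, ZMod.card, nsmul_eq_mul]
      push_cast
      have : (0:ℝ) < (M : ℝ) ^ K.card := by positivity
      rw [mul_div_cancel₀ _ this.ne'])
  have hMpos : (0:ℝ) < (M : ℝ) ^ K.card := by positivity
  have hle : p ≤ (Finset.univ.filter fun x : ZMod p => f x = y).card * M ^ K.card := by
    rw [div_le_iff₀ hMpos] at hy
    exact_mod_cast hy
  refine ⟨Finset.univ.filter fun x : ZMod p => f x = y, ?_, hle, ?_⟩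
  · rw [Finset.nonempty_iff_ne_empty]
    intro h
    rw [h] at hle
    simp at hle
    omega
  · intro k hk s hs t ht
    rw [Finset.mem_filter] at hs ht
    have h1 : f s ⟨k, hk⟩ = f t ⟨k, hk⟩ := by rw [hs.2, ht.2]
    have h2 : (k * s).val * M / p = (k * t).val * M / p := congrArg Fin.val h1
    rw [mul_sub]
    refine (ee_sub_bohr p (k * s) (k * t)).trans ?_
    rw [mul_div_assoc]
    have hMr : (0:ℝ) < (M : ℝ) := by exact_mod_cast hM
    have hpr : (0:ℝ) < (p : ℝ) := by exact_mod_cast hp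
    have h3 : |(((k * s).val : ℝ) - ((k * t).val : ℝ))| / p ≤ 1 / M := by
      rw [div_le_div_iff₀ hpr hMr, one_mul]
      have ha := Nat.div_add_mod ((k * s).val * M) p
      have hb := Nat.div_add_mod ((k * t).val * M) p
      have ha' := Nat.mod_lt ((k * s).val * M) hp
      have hb' := Nat.mod_lt ((k * t).val * M) hp
      rw [h2] at ha
      generalize (k * s).val * M % p = r1 at *
      generalize (k * t).val * M % p = r2 at *
      generalize p * ((k * t).val * M / p) = q at *
      have ha1 : ((k * s).val : ℝ) * M = q + r1 := by exact_mod_cast ha.symm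
      have hb1 : ((k * t).val : ℝ) * M = q + r2 := by exact_mod_cast hb.symm
      have hr1 : (r1 : ℝ) < p := by exact_mod_cast ha'
      have hr2 : (r2 : ℝ) < p := by exact_mod_cast hb'
      have hr1' : (0:ℝ) ≤ (r1 : ℝ) := by positivity
      have hr2' : (0:ℝ) ≤ (r2 : ℝ) := by positivity
      rw [← abs_of_pos hMr, ← abs_mul, sub_mul, ha1, hb1, abs_le]
      constructor <;> linarith
    have h4 : 2 * (Real.pi / M) = 2 * Real.pi * (1 / M) := by ring
    rw [h4]
    exact mul_le_mul_of_nonneg_left h3 (by positivity)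

end Pool.Agent.Q224.NR
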