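import Pool.Agent.Q224.NR.Stmts

set_option autoImplicit false

open scoped BigOperators ComplexConjugate
open Polynomial

namespace Pool.Agent.Q224.NR

private theorem ee_add_CoSm {p : ℕ} [NeZero p] (x y : ZMod p) : ee (x + y) = ee x * ee y := by
  simp [ee, AddChar.map_add_eq_mul]

private theorem conj_ee_CoSm {p : ℕ} [NeZero p] (x : ZMod p) :
    (starRingEnd ℂ) (ee x) = ee (-x) := by
  unfold ee
  rw [AddChar.map_neg_eq_conj]

private theorem norm_ee_CoSm {p : ℕ} [NeZero p] (x : ZMod p) : ‖ee x‖ = 1 := by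
  unfold ee
  exact AddChar.norm_apply _ _

private theorem mu_CoSm {p : ℕ} [NeZero p] (B : Finset (ZMod p)) (k : ZMod p) :
    (mu B k : ℂ) = (∑ s ∈ B, ee (k * s)) * (∑ t ∈ B, ee (-(k * t))) / (B.card : ℂ) ^ 2 := by
  have h1 : (∑ t ∈ B, ee (-(k * t))) = (starRingEnd ℂ) (∑ s ∈ B, ee (k * s)) := by
    rw [map_sum]
    exact Finset.sum_congr rfl fun s _ => (conj_ee_CoSm _).symm
  rw [h1, Complex.mul_conj, Complex.normSq_eq_norm_sq]
  unfold mu
  push_cast
  ring

private theorem shift_CoSm {p : ℕ} [NeZero p] (w : ZMod p → ℝ) (k s t : ZMod p) :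
    ∑ x : ZMod p, (w (x + s - t) : ℂ) * ee (-(k * x)) =
      (∑ x : ZMod p, (w x : ℂ) * ee (-(k * x))) * (ee (k * s) * ee (-(k * t))) := by
  rw [Finset.sum_mul]
  refine Fintype.sum_equiv (Equiv.addRight (s - t)) _ _ fun x => ?_
  simp only [Equiv.coe_addRight]
  rw [add_sub_assoc, mul_assoc, ← ee_add_CoSm, ← ee_add_CoSm]
  congr 2
  ring

theorem coSm : CoSm := by
  intro p _ B w k
  have h : ∑ x : ZMod p, (sm B w x : ℂ) * ee (-(k * x)) =
      (∑ x : ZMod p, (w x : ℂ) * ee (-(k * x))) *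
        ((∑ s ∈ B, ee (k * s)) * (∑ t ∈ B, ee (-(k * t)))) / (B.card : ℂ) ^ 2 := by
    calc ∑ x : ZMod p, (sm B w x : ℂ) * ee (-(k * x))
        = ∑ x : ZMod p, (∑ s ∈ B, ∑ t ∈ B, (w (x + s - t) : ℂ) * ee (-(k * x))) /
            (B.card : ℂ) ^ 2 := by
          refine Finset.sum_congr rfl fun x _ => ?_
          unfold sm
          push_cast
          rw [div_mul_eq_mul_div, Finset.sum_mul]
          congr 1
          exact Finset.sum_congr rfl fun s _ => by rw [Finset.sum_mul]
      _ = (∑ s ∈ B, ∑ t ∈ B, ∑ x : ZMod p, (w (x + s - t) : ℂ) * ee (-(k * x))) /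
            (B.card : ℂ) ^ 2 := by
          rw [← Finset.sum_div]
          congr 1
          rw [Finset.sum_comm]
          exact Finset.sum_congr rfl fun s _ => Finset.sum_comm
      _ = _ := by
          congr 1
          simp_rw [shift_CoSm]
          rw [Finset.sum_mul_sum, Finset.mul_sum]
          exact Finset.sum_congr rfl fun s _ => by rw [Finset.mul_sum]
  unfold co
  rw [h, mu_CoSm]
  ring

theorem muBd : MuBd := by
  intro p _ B k
  refine ⟨?_, ?_, ?_⟩
  · unfold mu
    positivity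
  · unfold mu
    have h1 : ‖∑ s ∈ B, ee (k * s)‖ ≤ B.card := by
      refine (norm_sum_le _ _).trans ?_
      simp [norm_ee_CoSm]
    rcases B.eq_empty_or_nonempty with hB | hB
    · simp [hB]
    · have h2 : (0 : ℝ) < (B.card : ℝ) ^ 2 := by
        have : (0 : ℝ) < B.card := by exact_mod_cast hB.card_pos
        positivity
      rw [div_le_one h2]
      exact pow_le_pow_left₀ (norm_nonneg _) h1 2
  · unfold mu
    congr 2
    have h1 : (∑ s ∈ B, ee (-k * s)) = (starRingEnd ℂ) (∑ s ∈ B, ee (k * s)) := by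
      rw [map_sum]
      exact Finset.sum_congr rfl fun s _ => by rw [conj_ee_CoSm, neg_mul]
    rw [h1]
    exact RCLike.norm_conj _

end Pool.Agent.Q224.NR
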