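import Pool.Agent.Q224.NR.Stmts

set_option autoImplicit false

open scoped BigOperators

namespace Pool.Agent.Q224.NR

theorem cost (htri : Tri) (hcs : CoSm) (hmb : MuBd) : Cost := by
  intro p _ w1 w2 w3 B K δ η α D hδ hη hα hB h1 h1K hK h2 h3
  obtain ⟨T1, hT1⟩ : ∃ T1 : ℝ, T1 = ∑ c : ZMod p, ∑ d : ZMod p,
      sm B w1 c * sm B w2 d * sm B w3 (c - d) := ⟨_, rfl⟩
  obtain ⟨T0, hT0⟩ : ∃ T0 : ℝ, T0 = ∑ c : ZMod p, ∑ d : ZMod p, w1 c * w2 d * w3 (c - d) :=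
    ⟨_, rfl⟩
  rw [← hT1, ← hT0]
  have e1 := htri p (sm B w1) (sm B w2) (sm B w3)
  have e0 := htri p w1 w2 w3
  rw [← hT1] at e1
  rw [← hT0] at e0
  have e : ((T1 - T0 : ℝ) : ℂ) = (p : ℂ) ^ 2 * ∑ k : ZMod p,
      co w1 (-k) * co w2 k * co w3 k * (((mu B k) ^ 3 - 1 : ℝ) : ℂ) := by
    rw [Complex.ofReal_sub, e1, e0, ← mul_sub, ← Finset.sum_sub_distrib]
    congr 1
    refine Finset.sum_congr rfl fun k _ => ?_
    rw [hcs, hcs, hcs, (hmb p B k).2.2]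
    push_cast
    ring
  have hc0 : 0 ≤ δ + 3 * η * α := by positivity
  have key : ∀ k : ZMod p, ‖co w1 (-k)‖ * |(mu B k) ^ 3 - 1| ≤ δ + 3 * η * α := by
    intro k
    obtain ⟨m0, m1, ms⟩ := hmb p B k
    have hm1 : (mu B k) ^ 3 ≤ 1 := pow_le_one₀ m0 m1
    have hm0 : 0 ≤ (mu B k) ^ 3 := pow_nonneg m0 3
    have hm3 : |(mu B k) ^ 3 - 1| = 1 - (mu B k) ^ 3 := by
      rw [abs_of_nonpos (by linarith)]; ring
    rw [hm3]
    have hle : 1 - (mu B k) ^ 3 ≤ 3 * (1 - mu B k) := by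
      nlinarith [mul_nonneg (sq_nonneg (1 - mu B k)) (by linarith : (0:ℝ) ≤ 2 + mu B k)]
    by_cases hk : -k ∈ K
    · have hkK := hK _ hk
      rw [ms] at hkK
      calc ‖co w1 (-k)‖ * (1 - (mu B k) ^ 3) ≤ α * (3 * η) :=
            mul_le_mul (h1 _) (by linarith) (by linarith) hα
        _ = 3 * η * α := by ring
        _ ≤ δ + 3 * η * α := by linarith
    · have h3 : 0 ≤ 3 * η * α := by positivity
      calc ‖co w1 (-k)‖ * (1 - (mu B k) ^ 3) ≤ δ * 1 :=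
            mul_le_mul (h1K _ hk) (by linarith) (by linarith) hδ
        _ ≤ δ + 3 * η * α := by linarith
  have hn : |T1 - T0| = ‖((T1 - T0 : ℝ) : ℂ)‖ := by rw [Complex.norm_real, Real.norm_eq_abs]
  rw [hn, e, norm_mul, norm_pow, Complex.norm_natCast, mul_assoc]
  refine mul_le_mul_of_nonneg_left ?_ (by positivity)
  calc ‖∑ k : ZMod p, co w1 (-k) * co w2 k * co w3 k * (((mu B k) ^ 3 - 1 : ℝ) : ℂ)‖
      ≤ ∑ k : ZMod p, ‖co w1 (-k) * co w2 k * co w3 k * (((mu B k) ^ 3 - 1 : ℝ) : ℂ)‖ :=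
        norm_sum_le _ _
    _ ≤ ∑ k : ZMod p, (δ + 3 * η * α) * ((‖co w2 k‖ ^ 2 + ‖co w3 k‖ ^ 2) / 2) := by
        refine Finset.sum_le_sum fun k _ => ?_
        rw [norm_mul, norm_mul, norm_mul, Complex.norm_real, Real.norm_eq_abs]
        have hs : ‖co w2 k‖ * ‖co w3 k‖ ≤ (‖co w2 k‖ ^ 2 + ‖co w3 k‖ ^ 2) / 2 := by
          nlinarith [sq_nonneg (‖co w2 k‖ - ‖co w3 k‖)]
        calc ‖co w1 (-k)‖ * ‖co w2 k‖ * ‖co w3 k‖ * |(mu B k) ^ 3 - 1|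
            = (‖co w1 (-k)‖ * |(mu B k) ^ 3 - 1|) * (‖co w2 k‖ * ‖co w3 k‖) := by ring
          _ ≤ _ := mul_le_mul (key k) hs (by positivity) hc0
    _ = (δ + 3 * η * α) *
        ((∑ k : ZMod p, ‖co w2 k‖ ^ 2 + ∑ k : ZMod p, ‖co w3 k‖ ^ 2) / 2) := by
        rw [← Finset.mul_sum, ← Finset.sum_div, Finset.sum_add_distrib]
    _ ≤ (δ + 3 * η * α) * D := mul_le_mul_of_nonneg_left (by linarith) hc0

end Pool.Agent.Q224.NR
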