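import Pool.Agent.Q224.NR.Stmts

set_option autoImplicit false

open scoped BigOperators
open Polynomial

namespace Pool.Agent.Q224.NR

private theorem trip {R : Type} [CommRing R] {p : ℕ} [NeZero p] (A B C : ZMod p → R) :
    (∑ k, A k) * (∑ k, B k) * (∑ k, C k) =
      ∑ k : ZMod p × ZMod p × ZMod p, A k.1 * B k.2.1 * C k.2.2 := by
  rw [Fintype.sum_prod_type, Finset.sum_mul, Finset.sum_mul]
  refine Finset.sum_congr rfl fun i _ => ?_
  rw [Fintype.sum_prod_type, mul_assoc, Finset.sum_mul_sum, Finset.mul_sum]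
  refine Finset.sum_congr rfl fun j _ => ?_
  rw [Finset.mul_sum]
  refine Finset.sum_congr rfl fun l _ => ?_
  ring

private theorem ee_add {p : ℕ} [NeZero p] (x y : ZMod p) : ee (x + y) = ee x * ee y :=
  AddChar.map_add_eq_mul _ _ _

private theorem ee_sum {p : ℕ} [Fact p.Prime] (u : ZMod p) :
    ∑ x : ZMod p, ee (u * x) = if u = 0 then (p : ℂ) else 0 := by
  have h := AddChar.sum_mulShift u (ZMod.isPrimitive_stdAddChar p)
  rw [ZMod.card] at h
  rw [show (∑ x : ZMod p, ee (u * x)) = ∑ x : ZMod p, ZMod.stdAddChar (x * u) from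
    Finset.sum_congr rfl fun x _ => by rw [mul_comm]; rfl]
  rw [h]
  split_ifs <;> simp

private theorem expand (hinv : Inv) (p : ℕ) [Fact p.Prime] (w1 w2 w3 : ZMod p → ℝ) {Y : Type}
    [Fintype Y] (x1 x2 x3 : Y → ZMod p) :
    ((∑ y, w1 (x1 y) * w2 (x2 y) * w3 (x3 y) : ℝ) : ℂ) =
      ∑ k : ZMod p × ZMod p × ZMod p, co w1 k.1 * co w2 k.2.1 * co w3 k.2.2 *
        ∑ y, ee (k.1 * x1 y + k.2.1 * x2 y + k.2.2 * x3 y) := by
  simp only [Finset.mul_sum]
  rw [Finset.sum_comm, Complex.ofReal_sum]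
  refine Finset.sum_congr rfl fun y _ => ?_
  rw [Complex.ofReal_mul, Complex.ofReal_mul, hinv p w1, hinv p w2, hinv p w3, trip]
  refine Finset.sum_congr rfl fun k _ => ?_
  rw [ee_add, ee_add]
  ring

theorem equi (hinv : Inv) : Equi := by
  intro P p _ C hC w1 w2 w3
  have e1 := expand hinv p w1 w2 w3 (fun y => y) (pe P) (fun y => y - pe P y)
  have e2 := expand hinv p w1 w2 w3 (Y := ZMod p × ZMod p) (fun y => y.1) (fun y => y.2)
    (fun y => y.1 - y.2)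
  have f1 : ∀ k : ZMod p × ZMod p × ZMod p,
      ∑ y : ZMod p, ee (k.1 * y + k.2.1 * pe P y + k.2.2 * (y - pe P y)) =
      ∑ y : ZMod p, ee ((k.1 + k.2.2) * y + (k.2.1 - k.2.2) * pe P y) := by
    intro k
    refine Finset.sum_congr rfl fun y _ => ?_
    congr 1
    ring
  have f2 : ∀ k : ZMod p × ZMod p × ZMod p,
      ∑ y : ZMod p × ZMod p, ee (k.1 * y.1 + k.2.1 * y.2 + k.2.2 * (y.1 - y.2)) =
      if k.1 + k.2.2 = 0 ∧ k.2.1 - k.2.2 = 0 then (p : ℂ) ^ 2 else 0 := by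
    intro k
    have h1 : ∑ y : ZMod p × ZMod p, ee (k.1 * y.1 + k.2.1 * y.2 + k.2.2 * (y.1 - y.2)) =
        (∑ x : ZMod p, ee ((k.1 + k.2.2) * x)) * ∑ y : ZMod p, ee ((k.2.1 - k.2.2) * y) := by
      rw [Fintype.sum_prod_type, Finset.sum_mul]
      refine Finset.sum_congr rfl fun x _ => ?_
      rw [Finset.mul_sum]
      refine Finset.sum_congr rfl fun y _ => ?_
      rw [← ee_add]
      congr 1
      ring
    rw [h1, ee_sum, ee_sum]
    by_cases h2 : k.1 + k.2.2 = 0 <;> by_cases h3 : k.2.1 - k.2.2 = 0 <;> simp [h2, h3, sq]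
  have hp : (p : ℂ) ≠ 0 := by
    have := (Fact.out : p.Prime).ne_zero
    exact_mod_cast this
  have hdiff : (((∑ y : ZMod p, w1 y * w2 (pe P y) * w3 (y - pe P y)) -
      (∑ c : ZMod p, ∑ d : ZMod p, w1 c * w2 d * w3 (c - d)) / p : ℝ) : ℂ) =
      ∑ k : ZMod p × ZMod p × ZMod p, co w1 k.1 * co w2 k.2.1 * co w3 k.2.2 *
        ((∑ y : ZMod p, ee ((k.1 + k.2.2) * y + (k.2.1 - k.2.2) * pe P y)) -
          if k.1 + k.2.2 = 0 ∧ k.2.1 - k.2.2 = 0 then (p : ℂ) else 0) := by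
    have e3 : ((∑ c : ZMod p, ∑ d : ZMod p, w1 c * w2 d * w3 (c - d) : ℝ) : ℂ) =
        ∑ k : ZMod p × ZMod p × ZMod p, co w1 k.1 * co w2 k.2.1 * co w3 k.2.2 *
          if k.1 + k.2.2 = 0 ∧ k.2.1 - k.2.2 = 0 then (p : ℂ) ^ 2 else 0 := by
      rw [← Fintype.sum_prod_type (fun y : ZMod p × ZMod p => w1 y.1 * w2 y.2 * w3 (y.1 - y.2)), e2]
      exact Finset.sum_congr rfl fun k _ => by rw [f2]
    rw [Complex.ofReal_sub, Complex.ofReal_div, e1, e3, Finset.sum_div, ← Finset.sum_sub_distrib,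
      Complex.ofReal_natCast]
    refine Finset.sum_congr rfl fun k _ => ?_
    rw [f1, mul_sub]
    congr 1
    split_ifs
    · field_simp
    · simp
  rw [← Real.norm_eq_abs, ← Complex.norm_real, hdiff]
  calc ‖∑ k : ZMod p × ZMod p × ZMod p, co w1 k.1 * co w2 k.2.1 * co w3 k.2.2 *
        ((∑ y : ZMod p, ee ((k.1 + k.2.2) * y + (k.2.1 - k.2.2) * pe P y)) -
          if k.1 + k.2.2 = 0 ∧ k.2.1 - k.2.2 = 0 then (p : ℂ) else 0)‖
      ≤ ∑ k : ZMod p × ZMod p × ZMod p, ‖co w1 k.1‖ * ‖co w2 k.2.1‖ * ‖co w3 k.2.2‖ * C := by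
        refine (norm_sum_le _ _).trans (Finset.sum_le_sum fun k _ => ?_)
        rw [norm_mul, norm_mul, norm_mul]
        exact mul_le_mul_of_nonneg_left (hC _ _) (by positivity)
    _ = C * (∑ k : ZMod p, ‖co w1 k‖) * (∑ k : ZMod p, ‖co w2 k‖) * (∑ k : ZMod p, ‖co w3 k‖) := by
        rw [mul_assoc C, mul_assoc C, trip, Finset.mul_sum]
        exact Finset.sum_congr rfl fun k _ => by ring

end Pool.Agent.Q224.NR
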