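import Pool.Agent.Q224.NR.Stmts

set_option autoImplicit false

open Polynomial

namespace Pool.Agent.Q224.NR

private theorem fibre_aux {p : ℕ} [Fact p.Prime] (R : (ZMod p)[X]) (n : ℕ) (hc : R.coeff n ≠ 0)
    (hn : R.natDegree ≤ n) (S : Finset (ZMod p)) (h : ∀ x ∈ S, R.eval x = 0) : S.card ≤ n := by
  have h0 : R ≠ 0 := by
    rintro rfl
    simp at hc
  refine le_trans (Polynomial.card_le_degree_of_subset_roots (p := R) (Z := S) ?_) hn
  intro x hx
  rw [Polynomial.mem_roots h0]
  exact h x hx

theorem fibre : Fibre := by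
  intro P hP
  refine ⟨P.leadingCoeff.natAbs + 1, ?_⟩
  intro p _ hp A d
  have hlc : ((P.leadingCoeff : ℤ) : ZMod p) ≠ 0 := by
    intro h
    rw [ZMod.intCast_zmod_eq_zero_iff_dvd] at h
    have h1 := Int.natAbs_dvd_natAbs.2 h
    rw [Int.natAbs_natCast] at h1
    have h2 : P.leadingCoeff ≠ 0 := by
      intro h3
      rw [leadingCoeff_eq_zero] at h3
      rw [h3] at hP
      simp at hP
    have := Nat.le_of_dvd (Int.natAbs_pos.2 h2) h1
    omega
  set Q := P.map (Int.castRingHom (ZMod p)) with hQ
  have hQn : Q.natDegree ≤ P.natDegree := natDegree_map_le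
  have hQc : Q.coeff P.natDegree ≠ 0 := by
    rw [hQ, coeff_map]
    simpa using hlc
  have hX : (X : (ZMod p)[X]).coeff P.natDegree = 0 := by
    rw [coeff_X, if_neg (by omega)]
  have hC : (C d).coeff P.natDegree = 0 := by
    rw [coeff_C, if_neg (by omega)]
  constructor
  · have := fibre_aux (Q - C d) P.natDegree (by rw [coeff_sub, hC, sub_zero]; exact hQc)
      ((natDegree_sub_C).le.trans hQn) (A.filter fun x => pe P x = d) (by
        intro x hx
        have h1 := (Finset.mem_filter.1 hx).2
        unfold pe at h1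
        rw [eval_sub, eval_C, hQ, h1, sub_self])
    unfold wt
    exact_mod_cast this
  · have := fibre_aux (X - Q - C d) P.natDegree
      (by rw [coeff_sub, coeff_sub, hC, hX, sub_zero, zero_sub]; exact neg_ne_zero.2 hQc)
      (by
        rw [natDegree_sub_C]
        refine (natDegree_sub_le_of_le (m := P.natDegree) ?_ hQn).trans (max_self _).le
        rw [natDegree_X]
        omega) (A.filter fun x => x - pe P x = d) (by
        intro x hx
        have h1 := (Finset.mem_filter.1 hx).2
        unfold pe at h1
        rw [eval_sub, eval_sub, eval_C, eval_X, hQ, h1, sub_self])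
    unfold wt
    exact_mod_cast this

end Pool.Agent.Q224.NR
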