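import Pool.Agent.Q224.NR.Stmts

/-!
# Project NR: the final theorem from the main inequality
-/

set_option autoImplicit false

open scoped BigOperators
open Polynomial

namespace Pool.Agent.Q224.NR

theorem final (hmain : Main) (hasym : Asym) : Final := by
  classical
  intro P hP
  obtain ⟨p1, h1⟩ := hmain P hP
  obtain ⟨p2, h2⟩ := hasym P.natDegree
  refine ⟨max p1 p2, ?_⟩
  intro p hpp hp A hA
  haveI : Fact p.Prime := ⟨hpp⟩
  have hp0 : (0 : ℝ) < p := by exact_mod_cast hpp.pos
  set α : ℝ := A.card / p with hα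
  have hα1 : α ≤ 1 := by
    rw [hα, div_le_one hp0]
    have : A.card ≤ p := by
      have := Finset.card_le_univ A
      rwa [ZMod.card] at this
    exact_mod_cast this
  have hα2 : 1 / (Real.log p) ^ (1 / 7 : ℝ) ≤ α := by
    rw [hα, le_div_iff₀ hp0]
    calc 1 / (Real.log p) ^ (1 / 7 : ℝ) * p = p / (Real.log p) ^ (1 / 7 : ℝ) := by ring
      _ ≤ _ := hA
  obtain ⟨M, κ, δ, hM, hδ, hκ, hle⟩ := h2 p (le_trans (le_max_right _ _) hp) α hα2 hα1
  have hm := h1 p (le_trans (le_max_left _ _) hp) A M κ δ α hα hM hδ hκ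
  have hAp : (A.card : ℝ) = p * α := by rw [hα]; field_simp
  -- the trivial patterns
  have hT : (T P A : ℝ) ≤ (((A ×ˢ A).filter fun q => q.1 ≠ q.2 ∧
        q.2 + Polynomial.eval q.1 (Polynomial.map (Int.castRingHom (ZMod p)) P)
          - Polynomial.eval q.2 (Polynomial.map (Int.castRingHom (ZMod p)) P) ∈ A).card : ℝ)
      + A.card := by
    have e1 : ((A ×ˢ A).filter fun q => q.2 + pe P q.1 - pe P q.2 ∈ A) ⊆
        ((A ×ˢ A).filter fun q => q.1 ≠ q.2 ∧
        q.2 + Polynomial.eval q.1 (Polynomial.map (Int.castRingHom (ZMod p)) P)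
          - Polynomial.eval q.2 (Polynomial.map (Int.castRingHom (ZMod p)) P) ∈ A) ∪
        (A.image fun x => (x, x)) := by
      intro q hq
      rw [Finset.mem_filter] at hq
      obtain ⟨hq1, hq2⟩ := hq
      rw [Finset.mem_union, Finset.mem_filter]
      by_cases h : q.1 = q.2
      · right
        rw [Finset.mem_image]
        exact ⟨q.1, (Finset.mem_product.1 hq1).1, Prod.ext rfl h⟩
      · left
        exact ⟨hq1, h, hq2⟩
    have e2 : T P A ≤ ((A ×ˢ A).filter fun q => q.1 ≠ q.2 ∧
        q.2 + Polynomial.eval q.1 (Polynomial.map (Int.castRingHom (ZMod p)) P)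
          - Polynomial.eval q.2 (Polynomial.map (Int.castRingHom (ZMod p)) P) ∈ A).card
      + A.card := by
      unfold T
      exact (Finset.card_le_card e1).trans ((Finset.card_union_le _ _).trans
        (Nat.add_le_add_left Finset.card_image_le _))
    exact_mod_cast e2
  set N : ℝ := (((A ×ˢ A).filter fun q => q.1 ≠ q.2 ∧
        q.2 + Polynomial.eval q.1 (Polynomial.map (Int.castRingHom (ZMod p)) P)
          - Polynomial.eval q.2 (Polynomial.map (Int.castRingHom (ZMod p)) P) ∈ A).card : ℝ) with hN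
  have h5 : (T P A : ℝ) / p ≤ N / p + α := by
    rw [hα, ← add_div]
    exact div_le_div_of_nonneg_right hT hp0.le
  have h6 : p * α ^ 4 / 512 ≤ N / p := by linarith
  have h7 : p * α ^ 4 / 512 * p ≤ N := by
    rwa [le_div_iff₀ hp0] at h6
  calc (A.card : ℝ) ^ 4 / (512 * (p : ℝ) ^ 2) = p * α ^ 4 / 512 * p := by
        rw [hAp]; field_simp
    _ ≤ N := h7

end Pool.Agent.Q224.NR
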