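import Pool.Agent.Q224.NR.Stmts

set_option autoImplicit false

open scoped BigOperators

namespace Pool.Agent.Q224.NR

private theorem good_id {p : ℕ} [NeZero p] (B : Finset (ZMod p)) (w : ZMod p → ℝ) :
    ∑ d, w d * sm B w d = (∑ u, (∑ s ∈ B, w (u + s)) ^ 2) / (B.card : ℝ) ^ 2 := by
  unfold sm
  have h1 : ∀ d, w d * ((∑ s ∈ B, ∑ t ∈ B, w (d + s - t)) / (B.card : ℝ) ^ 2) =
      (∑ s ∈ B, ∑ t ∈ B, w d * w (d + s - t)) / (B.card : ℝ) ^ 2 := by
    intro d
    rw [← mul_div_assoc, Finset.mul_sum]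
    congr 1
    exact Finset.sum_congr rfl fun s _ => Finset.mul_sum _ _ _
  rw [Finset.sum_congr rfl fun d _ => h1 d, ← Finset.sum_div]
  congr 1
  have h2 : ∀ u, (∑ s ∈ B, w (u + s)) ^ 2 = ∑ s ∈ B, ∑ t ∈ B, w (u + s) * w (u + t) := by
    intro u
    rw [sq, Finset.sum_mul_sum]
  rw [Finset.sum_congr rfl fun u _ => h2 u, Finset.sum_comm, Finset.sum_comm (s := Finset.univ)
    (t := B)]
  refine Finset.sum_congr rfl fun s _ => ?_
  rw [Finset.sum_comm, Finset.sum_comm (s := Finset.univ) (t := B)]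
  refine Finset.sum_congr rfl fun t _ => ?_
  symm
  refine Fintype.sum_equiv (Equiv.addRight t) _ _ fun u => ?_
  simp only [Equiv.coe_addRight]
  rw [mul_comm]
  congr 2
  ring

theorem good : Good := by
  intro p _ S A B φ c hc hSA hB h
  have hp : (0 : ℝ) < p := by exact_mod_cast (Fact.out : p.Prime).pos
  rcases S.eq_empty_or_nonempty with rfl | hS
  · simp only [Finset.card_empty, Nat.cast_zero]
    positivity
  have hBc : (0 : ℝ) < B.card := by exact_mod_cast hB.card_pos
  have hSc : (0 : ℝ) < S.card := by exact_mod_cast hS.card_pos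
  set w : ZMod p → ℝ := wt S φ with hw
  have hle : ∀ d, w d ≤ wt A φ d := by
    intro d
    simp only [hw, wt]
    exact_mod_cast Finset.card_le_card (Finset.filter_subset_filter _ hSA)
  have hsm : ∀ d, sm B w d ≤ sm B (wt A φ) d := by
    intro d
    unfold sm
    refine div_le_div_of_nonneg_right ?_ (by positivity)
    exact Finset.sum_le_sum fun s _ => Finset.sum_le_sum fun t _ => hle _
  have hsum : ∀ g : ZMod p → ℝ, ∑ x ∈ S, g (φ x) = ∑ d, w d * g d := by
    intro g
    rw [← Finset.sum_fiberwise S φ (fun x => g (φ x))]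
    refine Finset.sum_congr rfl fun d _ => ?_
    rw [Finset.sum_congr rfl (g := fun _ => g d)
      (fun x hx => by rw [(Finset.mem_filter.1 hx).2])]
    simp [hw, wt]
  have hone : ∑ d, w d = S.card := by
    have := hsum (fun _ => 1)
    simpa using this.symm
  have hcs : (∑ u, ∑ s ∈ B, w (u + s)) ^ 2 ≤ p * ∑ u, (∑ s ∈ B, w (u + s)) ^ 2 := by
    have := sq_sum_le_card_mul_sum_sq (s := Finset.univ)
      (f := fun u : ZMod p => ∑ s ∈ B, w (u + s))
    simpa [ZMod.card] using this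
  have htot : ∑ u, ∑ s ∈ B, w (u + s) = B.card * S.card := by
    rw [Finset.sum_comm]
    have : ∀ s ∈ B, ∑ u, w (u + s) = S.card := fun s _ => by
      rw [← hone]
      exact Fintype.sum_equiv (Equiv.addRight s) _ _ (fun u => rfl)
    rw [Finset.sum_congr rfl this]
    simp
  have hup : ∑ x ∈ S, sm B w (φ x) ≤ S.card * (c * A.card / p) := by
    calc ∑ x ∈ S, sm B w (φ x) ≤ ∑ x ∈ S, c * A.card / p :=
          Finset.sum_le_sum fun x hx => (hsm _).trans (h x hx)
      _ = S.card * (c * A.card / p) := by simp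
  rw [hsum (sm B w), good_id] at hup
  rw [htot] at hcs
  set Q : ℝ := ∑ u, (∑ s ∈ B, w (u + s)) ^ 2 with hQ
  have h3 : Q ≤ S.card * (c * A.card / p) * (B.card : ℝ) ^ 2 := by
    rwa [div_le_iff₀ (by positivity)] at hup
  have h4 : ((B.card : ℝ) ^ 2 * S.card) * S.card ≤ ((B.card : ℝ) ^ 2 * S.card) * (c * A.card) := by
    calc ((B.card : ℝ) ^ 2 * S.card) * S.card = ((B.card : ℝ) * S.card) ^ 2 := by ring
      _ ≤ p * Q := hcs
      _ ≤ p * (S.card * (c * A.card / p) * (B.card : ℝ) ^ 2) :=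
          mul_le_mul_of_nonneg_left h3 hp.le
      _ = ((B.card : ℝ) ^ 2 * S.card) * (c * A.card) := by
          field_simp
  exact le_of_mul_le_mul_left h4 (by positivity)

end Pool.Agent.Q224.NR
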