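import Pool.Agent.Q224.NR.Stmts

set_option autoImplicit false

open scoped BigOperators
open Polynomial

namespace Pool.Agent.Q224.NR

theorem orth {p : ℕ} [Fact p.Prime] (a : ZMod p) :
    ∑ k : ZMod p, ee (k * a) = if a = 0 then (p : ℂ) else 0 := by
  have h := AddChar.sum_mulShift a (ZMod.isPrimitive_stdAddChar p)
  rw [ZMod.card] at h
  unfold ee
  rw [h]
  split_ifs <;> simp

theorem ee_add {p : ℕ} [NeZero p] (a b : ZMod p) : ee (a + b) = ee a * ee b :=
  AddChar.map_add_eq_mul _ a b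

theorem inv : Inv := by
  intro p _ w c
  have hp : (p : ℂ) ≠ 0 := Nat.cast_ne_zero.2 (Fact.out : p.Prime).ne_zero
  have h1 : ∀ k : ZMod p, co w k * ee (k * c) =
      ∑ x : ZMod p, ((w x : ℂ) / p) * ee (k * (c - x)) := by
    intro k
    unfold co
    rw [Finset.sum_div, Finset.sum_mul]
    apply Finset.sum_congr rfl
    intro x _
    rw [show k * (c - x) = -(k * x) + k * c by ring, ee_add]
    ring
  rw [Finset.sum_congr rfl fun k _ => h1 k, Finset.sum_comm]
  have h2 : ∀ x : ZMod p, ∑ k : ZMod p, ((w x : ℂ) / p) * ee (k * (c - x)) =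
      if x = c then (w c : ℂ) else 0 := by
    intro x
    rw [← Finset.mul_sum, orth]
    by_cases hx : x = c
    · rw [hx, sub_self, if_pos rfl, if_pos rfl, div_mul_cancel₀ _ hp]
    · rw [if_neg (fun h => hx (sub_eq_zero.1 h).symm), if_neg hx, mul_zero]
  rw [Finset.sum_congr rfl fun x _ => h2 x, Finset.sum_ite_eq']
  simp

theorem conj_co {p : ℕ} [Fact p.Prime] (w : ZMod p → ℝ) (k : ZMod p) :
    (starRingEnd ℂ) (co w k) = ∑ y : ZMod p, ((w y : ℂ) / p) * ee (k * y) := by
  unfold co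
  rw [map_div₀, map_sum, Finset.sum_div]
  apply Finset.sum_congr rfl
  intro y _
  rw [map_mul, Complex.conj_ofReal, Complex.conj_natCast]
  have : (starRingEnd ℂ) (ee (-(k * y))) = ee (k * y) := by
    unfold ee
    rw [← AddChar.map_neg_eq_conj, neg_neg]
  rw [this]
  ring

theorem pars : Pars := by
  intro p _ w
  have h1 : ∀ k : ZMod p, ((‖co w k‖ ^ 2 : ℝ) : ℂ) =
      ∑ y : ZMod p, ((w y : ℂ) / p) * (co w k * ee (k * y)) := by
    intro k
    have : ((‖co w k‖ ^ 2 : ℝ) : ℂ) = co w k * (starRingEnd ℂ) (co w k) := by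
      rw [Complex.mul_conj']
      push_cast
      rfl
    rw [this, conj_co, Finset.mul_sum]
    apply Finset.sum_congr rfl
    intro y _
    ring
  have h2 : ((∑ k : ZMod p, ‖co w k‖ ^ 2 : ℝ) : ℂ) = (((∑ x : ZMod p, w x ^ 2) / p : ℝ) : ℂ) := by
    rw [Complex.ofReal_sum, Finset.sum_congr rfl fun k _ => h1 k, Finset.sum_comm]
    push_cast
    rw [Finset.sum_div]
    apply Finset.sum_congr rfl
    intro y _
    rw [← Finset.mul_sum, ← inv p w y]
    ring
  exact_mod_cast h2

end Pool.Agent.Q224.NR
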