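import Pool.Agent.Q224.NR.Stmts

/-!
# Project NR: the main inequality
-/

set_option autoImplicit false

open scoped BigOperators
open Polynomial

namespace Pool.Agent.Q224.NR

theorem wt_sum {p : ℕ} [Fact p.Prime] (A : Finset (ZMod p)) (φ : ZMod p → ZMod p) :
    ∑ d : ZMod p, wt A φ d = A.card := by
  unfold wt
  have h : A.card = ∑ d : ZMod p, (A.filter fun x => φ x = d).card :=
    Finset.card_eq_sum_card_fiberwise (fun x _ => Finset.mem_coe.2 (Finset.mem_univ _))
  rw [h]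
  push_cast
  rfl

theorem wt_nonneg {p : ℕ} (A : Finset (ZMod p)) (φ : ZMod p → ZMod p) (d : ZMod p) :
    0 ≤ wt A φ d := by unfold wt; positivity

theorem sm_nonneg {p : ℕ} [NeZero p] (B : Finset (ZMod p)) (w : ZMod p → ℝ) (hw : ∀ d, 0 ≤ w d)
    (c : ZMod p) : 0 ≤ sm B w c := by
  unfold sm
  exact div_nonneg (Finset.sum_nonneg fun s _ => Finset.sum_nonneg fun t _ => hw _) (by positivity)

theorem wt_sq_sum {p : ℕ} [Fact p.Prime] (A : Finset (ZMod p)) (φ : ZMod p → ZMod p) (D : ℝ)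
    (hD : ∀ d, wt A φ d ≤ D) : ∑ d : ZMod p, wt A φ d ^ 2 ≤ D * A.card := by
  rw [← wt_sum A φ, Finset.mul_sum]
  refine Finset.sum_le_sum fun d _ => ?_
  rw [sq]
  exact mul_le_mul_of_nonneg_right (hD d) (wt_nonneg A φ d)

theorem low {p : ℕ} [Fact p.Prime] (hgood : Good) (A B : Finset (ZMod p)) (hB : B.Nonempty)
    (f g : ZMod p → ZMod p) (α : ℝ) (hα : α = A.card / p) :
    A.card / 4 * (α / 4) ^ 3 ≤
      ∑ y : ZMod p, sm B (wt A id) y * sm B (wt A f) (f y) * sm B (wt A g) (g y) := by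
  classical
  have hp0 : (0 : ℝ) < p := by exact_mod_cast (Fact.out : p.Prime).pos
  have hα0 : 0 ≤ α := by rw [hα]; positivity
  have hS : ∀ φ : ZMod p → ZMod p,
      ((A.filter fun y => sm B (wt A φ) (φ y) ≤ 1 / 4 * A.card / p).card : ℝ) ≤ 1 / 4 * A.card := by
    intro φ
    exact hgood p _ A B φ (1 / 4) (by norm_num) (Finset.filter_subset _ _) hB
      (fun x hx => (Finset.mem_filter.1 hx).2)
  set S1 := A.filter fun y => sm B (wt A id) (id y) ≤ 1 / 4 * A.card / p with hS1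
  set S2 := A.filter fun y => sm B (wt A f) (f y) ≤ 1 / 4 * A.card / p with hS2
  set S3 := A.filter fun y => sm B (wt A g) (g y) ≤ 1 / 4 * A.card / p with hS3
  set G := A \ (S1 ∪ S2 ∪ S3) with hG
  have hc : (A.card : ℝ) / 4 ≤ G.card := by
    have h1 : (S1 ∪ S2 ∪ S3).card ≤ S1.card + S2.card + S3.card :=
      le_trans (Finset.card_union_le _ _) (Nat.add_le_add_right (Finset.card_union_le _ _) _)
    have h2 : A.card ≤ G.card + (S1 ∪ S2 ∪ S3).card := by
      have := Finset.card_le_card_sdiff_add_card (s := A) (t := S1 ∪ S2 ∪ S3)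
      simpa [hG] using this
    have h3 : (A.card : ℝ) ≤ G.card + (S1.card + S2.card + S3.card) := by
      exact_mod_cast le_trans h2 (Nat.add_le_add_left h1 _)
    have := hS id
    have := hS f
    have := hS g
    linarith
  have hnn : ∀ y, 0 ≤ sm B (wt A id) y * sm B (wt A f) (f y) * sm B (wt A g) (g y) := fun y =>
    mul_nonneg (mul_nonneg (sm_nonneg B _ (wt_nonneg A _) _) (sm_nonneg B _ (wt_nonneg A _) _))
      (sm_nonneg B _ (wt_nonneg A _) _)
  calc (A.card : ℝ) / 4 * (α / 4) ^ 3 ≤ G.card * (α / 4) ^ 3 :=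
        mul_le_mul_of_nonneg_right hc (by positivity)
    _ = ∑ y ∈ G, (α / 4) ^ 3 := by rw [Finset.sum_const, nsmul_eq_mul]
    _ ≤ ∑ y ∈ G, sm B (wt A id) y * sm B (wt A f) (f y) * sm B (wt A g) (g y) := by
        refine Finset.sum_le_sum fun y hy => ?_
        rw [hG, Finset.mem_sdiff, Finset.mem_union, Finset.mem_union] at hy
        obtain ⟨hyA, hy2⟩ := hy
        push Not at hy2
        obtain ⟨⟨h1, h2⟩, h3⟩ := hy2
        have e : 1 / 4 * (A.card : ℝ) / p = α / 4 := by rw [hα]; ring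
        have k1 : α / 4 ≤ sm B (wt A id) y := by
          by_contra h
          exact h1 (Finset.mem_filter.2 ⟨hyA, by rw [e]; exact (le_of_lt (not_le.1 h))⟩)
        have k2 : α / 4 ≤ sm B (wt A f) (f y) := by
          by_contra h
          exact h2 (Finset.mem_filter.2 ⟨hyA, by rw [e]; exact (le_of_lt (not_le.1 h))⟩)
        have k3 : α / 4 ≤ sm B (wt A g) (g y) := by
          by_contra h
          exact h3 (Finset.mem_filter.2 ⟨hyA, by rw [e]; exact (le_of_lt (not_le.1 h))⟩)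
        have hq : 0 ≤ α / 4 := by positivity
        calc (α / 4) ^ 3 = α / 4 * (α / 4) * (α / 4) := by ring
          _ ≤ _ := mul_le_mul (mul_le_mul k1 k2 hq (hq.trans k1)) k3 hq
              (mul_nonneg (hq.trans k1) (hq.trans k2))
    _ ≤ _ := Finset.sum_le_sum_of_subset_of_nonneg (Finset.subset_univ _) (fun y _ _ => hnn y)

theorem main (hpars : Pars) (hcole : CoLe) (hcosm : CoSm) (hmusum : MuSum) (hmunear : MuNear)
    (hmubd : MuBd) (hbohr : Bohr) (hgood : Good) (hweil : WeilUV) (hequi : Equi) (hfib : Fibre)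
    (hcost : Cost) (htw : TW) : Main := by
  classical
  intro P hP
  obtain ⟨p1, hw⟩ := hweil P hP
  obtain ⟨p2, hf⟩ := hfib P hP
  refine ⟨max p1 p2, ?_⟩
  intro p _ hp A M κ δ α hα hM hδ hκ
  have hp1 := hw p (le_trans (le_max_left _ _) hp)
  have hp2 := hf p (le_trans (le_max_right _ _) hp) A
  have hp0 : (0 : ℝ) < p := by exact_mod_cast (Fact.out : p.Prime).pos
  have hα0 : 0 ≤ α := by rw [hα]; positivity
  have hM0 : (0 : ℝ) < M := by exact_mod_cast (by omega : 0 < M)
  have hM1 : (1 : ℝ) ≤ M := by exact_mod_cast hM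
  have hAp : (A.card : ℝ) = p * α := by rw [hα]; field_simp
  -- coefficient bounds
  have hco : ∀ (φ : ZMod p → ZMod p) (k : ZMod p), ‖co (wt A φ) k‖ ≤ α := by
    intro φ k
    have := hcole p (wt A φ) (wt_nonneg A φ) k
    rwa [wt_sum, ← hα] at this
  have hL2 : ∀ (φ : ZMod p → ZMod p) (D : ℝ), (∀ d, wt A φ d ≤ D) →
      ∑ k : ZMod p, ‖co (wt A φ) k‖ ^ 2 ≤ D * α := by
    intro φ D h
    rw [hpars p (wt A φ), div_le_iff₀ hp0]
    refine (wt_sq_sum A φ D h).trans (le_of_eq ?_)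
    rw [hAp]; ring
  have h1 : ∀ d, wt A id d ≤ 1 := by
    intro d
    unfold wt
    have : (A.filter fun x => id x = d).card ≤ 1 := by
      rw [Finset.card_le_one]
      intro a ha b hb
      rw [Finset.mem_filter] at ha hb
      exact ha.2.trans hb.2.symm
    exact_mod_cast this
  have hl1 := hL2 id 1 h1
  have hl2 := hL2 (pe P) P.natDegree (fun d => (hp2 d).1)
  have hl3 := hL2 (fun y => y - pe P y) P.natDegree (fun d => (hp2 d).2)
  -- the large spectrum
  set K : Finset (ZMod p) := Finset.univ.filter fun k => δ < ‖co (wt A id) k‖ with hKd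
  have hK : K.card ≤ κ := by
    have e1 : (K.card : ℝ) * δ ^ 2 ≤ 1 * α := by
      calc (K.card : ℝ) * δ ^ 2 = ∑ k ∈ K, δ ^ 2 := by rw [Finset.sum_const, nsmul_eq_mul]
        _ ≤ ∑ k ∈ K, ‖co (wt A id) k‖ ^ 2 := by
            refine Finset.sum_le_sum fun k hk => ?_
            exact pow_le_pow_left₀ hδ.le (Finset.mem_filter.1 hk).2.le 2
        _ ≤ ∑ k : ZMod p, ‖co (wt A id) k‖ ^ 2 :=
            Finset.sum_le_sum_of_subset_of_nonneg (Finset.subset_univ _) (fun y _ _ => by positivity)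
        _ ≤ 1 * α := hl1
    have e2 : (K.card : ℝ) ≤ α / δ ^ 2 := by
      rw [le_div_iff₀ (by positivity)]; linarith
    exact_mod_cast e2.trans hκ
  obtain ⟨B, hB, hBc, hBn⟩ := hbohr p K M hM
  have hBc0 : (0 : ℝ) < B.card := by exact_mod_cast hB.card_pos
  have hη : (0 : ℝ) ≤ 2 * Real.pi / M := by positivity
  have hcst := hcost p (wt A id) (wt A (pe P)) (wt A (fun y => y - pe P y)) B K δ
    (2 * Real.pi / M) α (P.natDegree * α) hδ.le hη hα0 hB (hco id)
    (fun k hk => by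
      by_contra h
      exact hk (Finset.mem_filter.2 ⟨Finset.mem_univ _, not_le.1 h⟩))
    (fun k hk => hmunear p B k _ hB (hBn k hk)) hl2 hl3
  rw [htw P p A] at hcst
  -- the l1 norms
  have hl : ∀ φ : ZMod p → ZMod p, ∑ k : ZMod p, ‖co (sm B (wt A φ)) k‖ ≤ α * (M : ℝ) ^ κ := by
    intro φ
    calc ∑ k : ZMod p, ‖co (sm B (wt A φ)) k‖ ≤ ∑ k : ZMod p, α * mu B k := by
          refine Finset.sum_le_sum fun k _ => ?_
          rw [hcosm p B (wt A φ) k, norm_mul]
          have h0 := (hmubd p B k).1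
          rw [Complex.norm_real, Real.norm_of_nonneg h0]
          exact mul_le_mul_of_nonneg_right (hco φ k) h0
      _ = α * ((p : ℝ) / B.card) := by rw [← Finset.mul_sum, hmusum p B hB]
      _ ≤ α * (M : ℝ) ^ κ := by
          refine mul_le_mul_of_nonneg_left ?_ hα0
          rw [div_le_iff₀ hBc0]
          have e3 : (p : ℝ) ≤ B.card * (M : ℝ) ^ K.card := by exact_mod_cast hBc
          have e4 : (M : ℝ) ^ K.card ≤ (M : ℝ) ^ κ := pow_le_pow_right₀ hM1 hK
          calc (p : ℝ) ≤ B.card * (M : ℝ) ^ K.card := e3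
            _ ≤ B.card * (M : ℝ) ^ κ := mul_le_mul_of_nonneg_left e4 hBc0.le
            _ = (M : ℝ) ^ κ * B.card := by ring
  have he := hequi P p (P.natDegree * Real.sqrt p) hp1 (sm B (wt A id)) (sm B (wt A (pe P)))
    (sm B (wt A (fun y => y - pe P y)))
  have hlow := low hgood A B hB (pe P) (fun y => y - pe P y) α hα
  have hX : ∀ φ : ZMod p → ZMod p, 0 ≤ ∑ k : ZMod p, ‖co (sm B (wt A φ)) k‖ := fun φ =>
    Finset.sum_nonneg fun k _ => norm_nonneg _
  have hprod : P.natDegree * Real.sqrt p * (∑ k : ZMod p, ‖co (sm B (wt A id)) k‖) *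
      (∑ k : ZMod p, ‖co (sm B (wt A (pe P))) k‖) *
      (∑ k : ZMod p, ‖co (sm B (wt A (fun y => y - pe P y))) k‖) ≤
      P.natDegree * Real.sqrt p * (α * (M : ℝ) ^ κ) ^ 3 := by
    have hC : (0 : ℝ) ≤ P.natDegree * Real.sqrt p := by positivity
    have hY : 0 ≤ α * (M : ℝ) ^ κ := by positivity
    calc _ ≤ P.natDegree * Real.sqrt p * (α * (M : ℝ) ^ κ) * (α * (M : ℝ) ^ κ) *
          (α * (M : ℝ) ^ κ) := by
          refine mul_le_mul (mul_le_mul (mul_le_mul_of_nonneg_left (hl _) hC) (hl _) (hX _) ?_)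
            (hl _) (hX _) ?_
          · positivity
          · positivity
      _ = _ := by ring
  have e5 : (A.card : ℝ) / 4 * (α / 4) ^ 3 = p * α ^ 4 / 256 := by rw [hAp]; ring
  rw [e5] at hlow
  have he2 := (abs_le.1 (he.trans hprod)).2
  have hc2 := (abs_le.1 hcst).2
  have hc3 : (∑ c : ZMod p, ∑ d : ZMod p, sm B (wt A id) c * sm B (wt A (pe P)) d *
      sm B (wt A (fun y => y - pe P y)) (c - d)) / p ≤ (T P A : ℝ) / p +
      p * (δ + 3 * (2 * Real.pi / M) * α) * (P.natDegree * α) := by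
    rw [div_le_iff₀ hp0, add_mul, div_mul_cancel₀ _ hp0.ne']
    calc _ ≤ (T P A : ℝ) + (p : ℝ) ^ 2 * (δ + 3 * (2 * Real.pi / M) * α) * (P.natDegree * α) := by
          linarith
      _ = _ := by ring
  linarith

end Pool.Agent.Q224.NR
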