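import Pool.Agent.Q224.NR.Stmts

/-! Tasks MuSum, MuNear, CoLe. -/

set_option autoImplicit false

namespace Pool.Agent.Q224.NR

open Finset

namespace MuS

theorem ee_norm {p : ℕ} [NeZero p] (x : ZMod p) : ‖ee x‖ = 1 := by
  unfold ee
  exact AddChar.norm_apply _ _

theorem ee_conj {p : ℕ} [NeZero p] (x : ZMod p) : (starRingEnd ℂ) (ee x) = ee (-x) := by
  unfold ee
  exact (AddChar.map_neg_eq_conj _ _).symm

theorem ms_ee_add {p : ℕ} [NeZero p] (x y : ZMod p) : ee (x + y) = ee x * ee y := by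
  unfold ee
  exact AddChar.map_add_eq_mul _ _ _

theorem sq_eq {p : ℕ} [NeZero p] (B : Finset (ZMod p)) (k : ZMod p) :
    ((‖∑ s ∈ B, ee (k * s)‖ ^ 2 : ℝ) : ℂ) = ∑ s ∈ B, ∑ t ∈ B, ee (k * (s - t)) := by
  have e1 := Complex.mul_conj' (∑ s ∈ B, ee (k * s))
  rw [map_sum, sum_mul_sum] at e1
  push_cast
  rw [← e1]
  refine sum_congr rfl fun s _ => sum_congr rfl fun t _ => ?_
  rw [ee_conj, ← ms_ee_add]
  congr 1
  ring

theorem ms_orth {p : ℕ} [Fact p.Prime] (c : ZMod p) : ∑ k : ZMod p, ee (k * c) = if c = 0 then (p : ℂ) else 0 := by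
  unfold ee
  rw [AddChar.sum_mulShift c (ZMod.isPrimitive_stdAddChar p), ZMod.card]
  split_ifs <;> simp

end MuS

open MuS

theorem muSum : MuSum := by
  intro p _ B hB
  have hB0 : (B.card : ℂ) ≠ 0 := by exact_mod_cast (Finset.card_pos.2 hB).ne'
  have h1 : ((∑ k : ZMod p, mu B k : ℝ) : ℂ) = ((p : ℝ) / B.card : ℝ) := by
    rw [Complex.ofReal_sum]
    have e1 : ∀ k : ZMod p, ((mu B k : ℝ) : ℂ) = (∑ s ∈ B, ∑ t ∈ B, ee (k * (s - t))) / (B.card : ℂ) ^ 2 := by
      intro k
      unfold mu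
      rw [Complex.ofReal_div, sq_eq]
      push_cast
      rfl
    simp only [e1]
    rw [← sum_div, sum_comm]
    have e2 : ∀ s ∈ B, ∑ k : ZMod p, ∑ t ∈ B, ee (k * (s - t)) = (p : ℂ) := by
      intro s hs
      rw [sum_comm]
      simp only [ms_orth]
      rw [sum_eq_single s]
      · simp
      · intro t _ hts
        rw [if_neg]
        exact fun h => hts (sub_eq_zero.1 h).symm
      · exact fun h => absurd hs h
    rw [sum_congr rfl e2, sum_const, nsmul_eq_mul]
    push_cast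
    field_simp
  exact_mod_cast h1

theorem muNear : MuNear := by
  intro p _ B k η hB h
  have hB0 : (0 : ℝ) < B.card := by exact_mod_cast Finset.card_pos.2 hB
  have h1 : ‖∑ s ∈ B, ee (k * s)‖ ^ 2 = ∑ s ∈ B, ∑ t ∈ B, (ee (k * (s - t))).re := by
    have e1 := congrArg Complex.re (sq_eq B k)
    rw [Complex.ofReal_re] at e1
    rw [e1, Complex.re_sum]
    refine sum_congr rfl fun s _ => ?_
    rw [Complex.re_sum]
  unfold mu
  rw [le_div_iff₀ (by positivity), h1]
  calc (1 - η) * (B.card : ℝ) ^ 2 = ∑ s ∈ B, ∑ t ∈ B, (1 - η) := by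
        rw [sum_const, sum_const, nsmul_eq_mul, nsmul_eq_mul]
        ring
    _ ≤ _ := by
        refine sum_le_sum fun s hs => sum_le_sum fun t ht => ?_
        have h2 := h s hs t ht
        have h3 := Complex.abs_re_le_norm (ee (k * (s - t)) - 1)
        rw [Complex.sub_re, Complex.one_re] at h3
        have h4 := neg_abs_le ((ee (k * (s - t))).re - 1)
        linarith

theorem coLe : CoLe := by
  intro p _ w hw k
  unfold co
  have hp : (0 : ℝ) < p := by exact_mod_cast (Fact.out : p.Prime).pos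
  rw [norm_div, Complex.norm_natCast]
  refine div_le_div_of_nonneg_right (norm_sum_le_of_le _ fun x _ => ?_) hp.le
  rw [norm_mul, ee_norm, mul_one, Complex.norm_real, Real.norm_of_nonneg (hw x)]

end Pool.Agent.Q224.NR
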