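import Mathlib

/-!
# Project NR (MP_29cad5_co): P-patterns in sets of density (log p)^(-1/7)

Definitions and the statements of the tasks.
-/

set_option autoImplicit false

open scoped BigOperators
open Polynomial

namespace Pool.Agent.Q224.NR

/-- The standard additive character of `ZMod p`. -/
noncomputable def ee {p : ℕ} [NeZero p] (x : ZMod p) : ℂ := ZMod.stdAddChar x

/-- Fourier coefficient. -/
noncomputable def co {p : ℕ} [NeZero p] (w : ZMod p → ℝ) (k : ZMod p) : ℂ :=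
  (∑ x : ZMod p, (w x : ℂ) * ee (-(k * x))) / (p : ℂ)

/-- Smoothing by the autocorrelation of `B`. -/
noncomputable def sm {p : ℕ} [NeZero p] (B : Finset (ZMod p)) (w : ZMod p → ℝ) (c : ZMod p) : ℝ :=
  (∑ s ∈ B, ∑ t ∈ B, w (c + s - t)) / (B.card : ℝ) ^ 2

/-- The multiplier of the smoothing. -/
noncomputable def mu {p : ℕ} [NeZero p] (B : Finset (ZMod p)) (k : ZMod p) : ℝ :=
  ‖∑ s ∈ B, ee (k * s)‖ ^ 2 / (B.card : ℝ) ^ 2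

/-- The weight of the image of `A` under `φ`. -/
noncomputable def wt {p : ℕ} (A : Finset (ZMod p)) (φ : ZMod p → ZMod p) (d : ZMod p) : ℝ :=
  ((A.filter fun x => φ x = d).card : ℝ)

/-- Evaluation of an integer polynomial modulo `p`. -/
noncomputable def pe {p : ℕ} (P : ℤ[X]) (x : ZMod p) : ZMod p :=
  Polynomial.eval x (Polynomial.map (Int.castRingHom (ZMod p)) P)

/-- The number of patterns, the trivial ones `x = y` included. -/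
noncomputable def T {p : ℕ} (P : ℤ[X]) (A : Finset (ZMod p)) : ℕ :=
  ((A ×ˢ A).filter fun q => q.2 + pe P q.1 - pe P q.2 ∈ A).card

/-! ### Tasks -/

def Inv : Prop := ∀ (p : ℕ) [Fact p.Prime] (w : ZMod p → ℝ) (c : ZMod p),
  (w c : ℂ) = ∑ k : ZMod p, co w k * ee (k * c)

def Pars : Prop := ∀ (p : ℕ) [Fact p.Prime] (w : ZMod p → ℝ),
  ∑ k : ZMod p, ‖co w k‖ ^ 2 = (∑ x : ZMod p, w x ^ 2) / p

def CoLe : Prop := ∀ (p : ℕ) [Fact p.Prime] (w : ZMod p → ℝ), (∀ x, 0 ≤ w x) →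
  ∀ k : ZMod p, ‖co w k‖ ≤ (∑ x : ZMod p, w x) / p

def CoSm : Prop := ∀ (p : ℕ) [Fact p.Prime] (B : Finset (ZMod p)) (w : ZMod p → ℝ) (k : ZMod p),
  co (sm B w) k = co w k * (mu B k : ℂ)

def MuSum : Prop := ∀ (p : ℕ) [Fact p.Prime] (B : Finset (ZMod p)), B.Nonempty →
  ∑ k : ZMod p, mu B k = (p : ℝ) / B.card

def MuNear : Prop := ∀ (p : ℕ) [Fact p.Prime] (B : Finset (ZMod p)) (k : ZMod p) (η : ℝ),
  B.Nonempty → (∀ s ∈ B, ∀ t ∈ B, ‖ee (k * (s - t)) - 1‖ ≤ η) → 1 - η ≤ mu B k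

def MuBd : Prop := ∀ (p : ℕ) [Fact p.Prime] (B : Finset (ZMod p)) (k : ZMod p),
  0 ≤ mu B k ∧ mu B k ≤ 1 ∧ mu B (-k) = mu B k

def Bohr : Prop := ∀ (p : ℕ) [Fact p.Prime] (K : Finset (ZMod p)) (M : ℕ), 1 ≤ M →
  ∃ B : Finset (ZMod p), B.Nonempty ∧ p ≤ B.card * M ^ K.card ∧
    ∀ k ∈ K, ∀ s ∈ B, ∀ t ∈ B, ‖ee (k * (s - t)) - 1‖ ≤ 2 * Real.pi / M

def Good : Prop := ∀ (p : ℕ) [Fact p.Prime] (S A B : Finset (ZMod p)) (φ : ZMod p → ZMod p)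
  (c : ℝ), 0 ≤ c → S ⊆ A → B.Nonempty →
  (∀ x ∈ S, sm B (wt A φ) (φ x) ≤ c * A.card / p) → (S.card : ℝ) ≤ c * A.card

def WeilUV : Prop := ∀ P : ℤ[X], 2 ≤ P.natDegree → ∃ p₀ : ℕ, ∀ (p : ℕ) [Fact p.Prime], p₀ ≤ p →
  ∀ u v : ZMod p, ‖(∑ y : ZMod p, ee (u * y + v * pe P y)) -
    (if u = 0 ∧ v = 0 then (p : ℂ) else 0)‖ ≤ P.natDegree * Real.sqrt p

def Equi : Prop := ∀ (P : ℤ[X]) (p : ℕ) [Fact p.Prime] (C : ℝ),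
  (∀ u v : ZMod p, ‖(∑ y : ZMod p, ee (u * y + v * pe P y)) -
    (if u = 0 ∧ v = 0 then (p : ℂ) else 0)‖ ≤ C) →
  ∀ w1 w2 w3 : ZMod p → ℝ,
    |∑ y : ZMod p, w1 y * w2 (pe P y) * w3 (y - pe P y) -
      (∑ c : ZMod p, ∑ d : ZMod p, w1 c * w2 d * w3 (c - d)) / p| ≤
    C * (∑ k : ZMod p, ‖co w1 k‖) * (∑ k : ZMod p, ‖co w2 k‖) * (∑ k : ZMod p, ‖co w3 k‖)

def Tri : Prop := ∀ (p : ℕ) [Fact p.Prime] (w1 w2 w3 : ZMod p → ℝ),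
  ((∑ c : ZMod p, ∑ d : ZMod p, w1 c * w2 d * w3 (c - d) : ℝ) : ℂ) =
    (p : ℂ) ^ 2 * ∑ k : ZMod p, co w1 (-k) * co w2 k * co w3 k

def Fibre : Prop := ∀ P : ℤ[X], 2 ≤ P.natDegree → ∃ p₀ : ℕ, ∀ (p : ℕ) [Fact p.Prime], p₀ ≤ p →
  ∀ (A : Finset (ZMod p)) (d : ZMod p), wt A (pe P) d ≤ P.natDegree ∧
    wt A (fun y => y - pe P y) d ≤ P.natDegree

def Cost : Prop := ∀ (p : ℕ) [Fact p.Prime] (w1 w2 w3 : ZMod p → ℝ) (B K : Finset (ZMod p))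
  (δ η α D : ℝ), 0 ≤ δ → 0 ≤ η → 0 ≤ α → B.Nonempty → (∀ k, ‖co w1 k‖ ≤ α) →
  (∀ k, k ∉ K → ‖co w1 k‖ ≤ δ) → (∀ k ∈ K, 1 - η ≤ mu B k) →
  ∑ k : ZMod p, ‖co w2 k‖ ^ 2 ≤ D → ∑ k : ZMod p, ‖co w3 k‖ ^ 2 ≤ D →
  |∑ c : ZMod p, ∑ d : ZMod p, sm B w1 c * sm B w2 d * sm B w3 (c - d) -
    ∑ c : ZMod p, ∑ d : ZMod p, w1 c * w2 d * w3 (c - d)| ≤ (p : ℝ) ^ 2 * (δ + 3 * η * α) * D

def TW : Prop := ∀ (P : ℤ[X]) (p : ℕ) [Fact p.Prime] (A : Finset (ZMod p)),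
  ∑ c : ZMod p, ∑ d : ZMod p, wt A id c * wt A (pe P) d * wt A (fun y => y - pe P y) (c - d) =
    (T P A : ℝ)

def Main : Prop := ∀ P : ℤ[X], 2 ≤ P.natDegree → ∃ p₀ : ℕ, ∀ (p : ℕ) [Fact p.Prime], p₀ ≤ p →
  ∀ (A : Finset (ZMod p)) (M κ : ℕ) (δ α : ℝ), α = A.card / p → 1 ≤ M → 0 < δ →
    α / δ ^ 2 ≤ κ →
    p * α ^ 4 / 256 ≤ (T P A : ℝ) / p +
      p * (δ + 3 * (2 * Real.pi / M) * α) * (P.natDegree * α) +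
      P.natDegree * Real.sqrt p * (α * (M : ℝ) ^ κ) ^ 3

def Asym : Prop := ∀ D : ℕ, ∃ p₀ : ℕ, ∀ p : ℕ, p₀ ≤ p → ∀ α : ℝ,
  1 / (Real.log p) ^ (1 / 7 : ℝ) ≤ α → α ≤ 1 → ∃ (M κ : ℕ) (δ : ℝ), 1 ≤ M ∧ 0 < δ ∧
    α / δ ^ 2 ≤ κ ∧
    p * (δ + 3 * (2 * Real.pi / M) * α) * (D * α) +
      D * Real.sqrt p * (α * (M : ℝ) ^ κ) ^ 3 + α ≤ p * α ^ 4 / 512

/-- The result. -/
def Final : Prop := ∀ P : ℤ[X], 2 ≤ P.natDegree → ∃ p₀ : ℕ, ∀ p : ℕ, p.Prime → p₀ ≤ p →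
  ∀ A : Finset (ZMod p), (p : ℝ) / (Real.log p) ^ (1 / 7 : ℝ) ≤ (A.card : ℝ) →
    (A.card : ℝ) ^ 4 / (512 * (p : ℝ) ^ 2) ≤
      (((A ×ˢ A).filter fun q => q.1 ≠ q.2 ∧
        q.2 + Polynomial.eval q.1 (Polynomial.map (Int.castRingHom (ZMod p)) P)
          - Polynomial.eval q.2 (Polynomial.map (Int.castRingHom (ZMod p)) P) ∈ A).card : ℝ)

end Pool.Agent.Q224.NR
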