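import Pool.Agent.Q224.NR.Stmts

set_option autoImplicit false

open scoped BigOperators
open Polynomial

namespace Pool.Agent.Q224.NR

private theorem tw_wt {p : ℕ} (A : Finset (ZMod p)) (φ : ZMod p → ZMod p) (d : ZMod p) :
    wt A φ d = ∑ x ∈ A, if φ x = d then (1 : ℝ) else 0 := by
  unfold wt
  rw [Finset.card_filter]
  push_cast
  rfl

theorem tW : TW := by
  intro P p _ A
  have h1 : ∀ c : ZMod p, wt A id c = if c ∈ A then (1 : ℝ) else 0 := by
    intro c
    rw [tw_wt]
    simp only [id]
    rw [Finset.sum_ite_eq' A c]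
  have h2 : ∀ c : ZMod p, ∑ d : ZMod p, wt A (pe P) d * wt A (fun y => y - pe P y) (c - d) =
      ∑ x ∈ A, ∑ y ∈ A, if y - pe P y = c - pe P x then (1 : ℝ) else 0 := by
    intro c
    have e1 : ∀ d : ZMod p, wt A (pe P) d * wt A (fun y => y - pe P y) (c - d) =
        ∑ x ∈ A, ∑ y ∈ A, if pe P x = d then (if y - pe P y = c - d then (1 : ℝ) else 0) else 0 := by
      intro d
      rw [tw_wt, tw_wt, Finset.sum_mul_sum]
      refine Finset.sum_congr rfl fun x _ => Finset.sum_congr rfl fun y _ => ?_
      rw [ite_mul, one_mul, zero_mul]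
    simp only [e1]
    rw [Finset.sum_comm]
    refine Finset.sum_congr rfl fun x _ => ?_
    rw [Finset.sum_comm]
    refine Finset.sum_congr rfl fun y _ => ?_
    rw [Finset.sum_ite_eq Finset.univ (pe P x)]
    rw [if_pos (Finset.mem_univ _)]
  have h3 : ∀ c : ZMod p, ∑ d : ZMod p, wt A id c * wt A (pe P) d *
      wt A (fun y => y - pe P y) (c - d) =
      if c ∈ A then ∑ x ∈ A, ∑ y ∈ A, (if y - pe P y = c - pe P x then (1 : ℝ) else 0) else 0 := by
    intro c
    simp only [mul_assoc]
    rw [← Finset.mul_sum, h2, h1, ite_mul, one_mul, zero_mul]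
  simp only [h3]
  rw [Finset.sum_ite_mem, Finset.univ_inter, Finset.sum_comm]
  unfold T
  rw [Finset.card_filter, Finset.sum_product]
  push_cast
  refine Finset.sum_congr rfl fun x _ => ?_
  rw [Finset.sum_comm]
  refine Finset.sum_congr rfl fun y _ => ?_
  have e2 : ∀ c : ZMod p, (if y - pe P y = c - pe P x then (1 : ℝ) else 0) =
      if c = y + pe P x - pe P y then (1 : ℝ) else 0 := by
    intro c
    refine if_congr ?_ rfl rfl
    constructor
    · intro h
      rw [eq_sub_iff_add_eq] at h
      rw [← h]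
      ring
    · intro h
      rw [h]
      ring
  simp only [e2]
  rw [Finset.sum_ite_eq' A (y + pe P x - pe P y)]

theorem tw : TW := tW

end Pool.Agent.Q224.NR
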