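import Pool.Agent.Q224.NR.Stmts

set_option autoImplicit false

open scoped BigOperators
open Polynomial Finset

namespace Pool.Agent.Q224.NR

theorem tri (hinv : Inv) : Tri := by
  intro p _ w1 w2 w3
  have hp : (p : ℂ) ≠ 0 := Nat.cast_ne_zero.2 (Fact.out : p.Prime).ne_zero
  have h3 : ∀ c d : ZMod p, (w3 (c - d) : ℂ) = ∑ k : ZMod p, co w3 k * ee (k * (c - d)) :=
    fun c d => hinv p w3 (c - d)
  have hee : ∀ k c d : ZMod p, ee (k * (c - d)) = ee (k * c) * ee (-(k * d)) := by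
    intro k c d
    unfold ee
    rw [← AddChar.map_add_eq_mul]
    congr 1
    ring
  have e1 : ∀ k : ZMod p, (p : ℂ) * co w1 (-k) = ∑ c : ZMod p, (w1 c : ℂ) * ee (k * c) := by
    intro k
    unfold co
    rw [mul_div_cancel₀ _ hp]
    refine Finset.sum_congr rfl fun x _ => ?_
    have : -(-k * x) = k * x := by ring
    rw [this]
  have e2 : ∀ k : ZMod p, (p : ℂ) * co w2 k = ∑ d : ZMod p, (w2 d : ℂ) * ee (-(k * d)) := by
    intro k
    unfold co
    rw [mul_div_cancel₀ _ hp]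
  calc ((∑ c : ZMod p, ∑ d : ZMod p, w1 c * w2 d * w3 (c - d) : ℝ) : ℂ)
      = ∑ c : ZMod p, ∑ d : ZMod p, (w1 c : ℂ) * (w2 d : ℂ) * (w3 (c - d) : ℂ) := by
        push_cast
        rfl
    _ = ∑ c : ZMod p, ∑ d : ZMod p, ∑ k : ZMod p,
          co w3 k * ((w1 c : ℂ) * ee (k * c)) * ((w2 d : ℂ) * ee (-(k * d))) := by
        refine Finset.sum_congr rfl fun c _ => Finset.sum_congr rfl fun d _ => ?_
        rw [h3, Finset.mul_sum]
        refine Finset.sum_congr rfl fun k _ => ?_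
        rw [hee]
        ring
    _ = ∑ c : ZMod p, ∑ k : ZMod p, ∑ d : ZMod p,
          co w3 k * ((w1 c : ℂ) * ee (k * c)) * ((w2 d : ℂ) * ee (-(k * d))) :=
        Finset.sum_congr rfl fun c _ => Finset.sum_comm
    _ = ∑ k : ZMod p, ∑ c : ZMod p, ∑ d : ZMod p,
          co w3 k * ((w1 c : ℂ) * ee (k * c)) * ((w2 d : ℂ) * ee (-(k * d))) :=
        Finset.sum_comm
    _ = ∑ k : ZMod p, (p : ℂ) ^ 2 * (co w1 (-k) * co w2 k * co w3 k) := by
        refine Finset.sum_congr rfl fun k _ => ?_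
        have e3 : ∑ c : ZMod p, ∑ d : ZMod p,
            co w3 k * ((w1 c : ℂ) * ee (k * c)) * ((w2 d : ℂ) * ee (-(k * d))) =
            co w3 k * (∑ c : ZMod p, (w1 c : ℂ) * ee (k * c)) *
              (∑ d : ZMod p, (w2 d : ℂ) * ee (-(k * d))) := by
          rw [mul_assoc, Finset.sum_mul_sum, Finset.mul_sum]
          refine Finset.sum_congr rfl fun c _ => ?_
          rw [Finset.mul_sum]
          refine Finset.sum_congr rfl fun d _ => ?_
          ring
        rw [e3, ← e1, ← e2]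
        ring
    _ = (p : ℂ) ^ 2 * ∑ k : ZMod p, co w1 (-k) * co w2 k * co w3 k := by
        rw [Finset.mul_sum]

end Pool.Agent.Q224.NR
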