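import Pool.Agent.Q224.NR.Stmts
import Pool.Agent.Y951.WP.Main

/-!
# Project NR: Weil's bound for `u y + v P(y)`
-/

set_option autoImplicit false

open Polynomial

namespace Pool.Agent.Q224.NR

theorem weilUV : WeilUV := by
  intro P hP
  refine ⟨P.natDegree + P.leadingCoeff.natAbs + 1, ?_⟩
  intro p _ hp u v
  have hpp : p.Prime := Fact.out
  have hP0 : P ≠ 0 := by
    rintro rfl
    simp at hP
  have hlc : (P.leadingCoeff : ZMod p) ≠ 0 := by
    intro h
    rw [ZMod.intCast_zmod_eq_zero_iff_dvd] at h
    have h1 := Int.natAbs_dvd_natAbs.2 h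
    rw [Int.natAbs_natCast] at h1
    have h2 := Nat.le_of_dvd (Int.natAbs_pos.2 (leadingCoeff_ne_zero.2 hP0)) h1
    omega
  have hmap : (P.map (Int.castRingHom (ZMod p))).natDegree = P.natDegree :=
    natDegree_map_of_leadingCoeff_ne_zero _ (by simpa using hlc)
  have hprim : (ZMod.stdAddChar (N := p)).IsPrimitive := ZMod.isPrimitive_stdAddChar p
  have hnn : (0 : ℝ) ≤ P.natDegree * Real.sqrt p := by positivity
  by_cases hv : v = 0
  · subst hv
    by_cases hu : u = 0
    · subst hu
      have h0 : ∑ y : ZMod p, ee (0 * y + 0 * pe P y) = (p : ℂ) := by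
        simp [ee]
      rw [h0, if_pos ⟨rfl, rfl⟩, sub_self, norm_zero]
      exact hnn
    · have h0 : ∑ y : ZMod p, ee (u * y + 0 * pe P y) = 0 := by
        have h1 := AddChar.sum_mulShift (ψ := ZMod.stdAddChar (N := p)) u hprim
        rw [if_neg hu] at h1
        refine Eq.trans (Finset.sum_congr rfl fun y _ => ?_) (h1.trans Nat.cast_zero)
        unfold ee
        congr 1
        ring
      rw [h0, if_neg (fun h => hu h.1), sub_zero, norm_zero]
      exact hnn
  · set f : (ZMod p)[X] := C u * X + C v * P.map (Int.castRingHom (ZMod p)) with hfdef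
    have hdeg : f.natDegree = P.natDegree := by
      rw [hfdef, natDegree_add_eq_right_of_natDegree_lt]
      · rw [natDegree_C_mul hv, hmap]
      · rw [natDegree_C_mul hv, hmap]
        exact lt_of_le_of_lt ((natDegree_C_mul_le u X).trans natDegree_X_le) (by omega)
    have h1 := Pool.Agent.Y951.WP.weil_le p f (by
      rw [hdeg]
      intro hd
      exact absurd (Nat.le_of_dvd (by omega) hd) (by omega)) hprim
    rw [if_neg (fun h => hv h.2), sub_zero]
    have h2 : ∑ y : ZMod p, ee (u * y + v * pe P y) =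
        ∑ x : ZMod p, ZMod.stdAddChar (f.eval x) := by
      refine Finset.sum_congr rfl fun y _ => ?_
      unfold ee pe
      rw [hfdef]
      simp
    rw [h2]
    refine h1.trans ?_
    rw [hdeg]
    have h3 : ((P.natDegree - 1 : ℕ) : ℝ) ≤ (P.natDegree : ℝ) := by
      exact_mod_cast Nat.sub_le _ _
    exact mul_le_mul_of_nonneg_right h3 (Real.sqrt_nonneg _)

end Pool.Agent.Q224.NR
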